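import Pool.Agent.H6.GB.Main
import Pool.Graph.R_pool_sql_team_seeded_3997aac3.Q27.HKN.Step
import Pool.Graph.R_pool_sql_team_seeded_63374d34.N509.RF.Fre

/-!
# Kernels with non-invariant series whose factors act on trees
-/

set_option autoImplicit false

namespace Pool.Agent.H6.NS

open Matrix
open Pool.Agent.Y110.FJ (ClosedE)
open Pool.Agent.R684.FP (FbC)
open Pool.Agent.T2H35.FJT (Met)
open MulAction (stabilizer)
open Q30.FJ (ClosedOver ClosedF)
open Q181.MCL (VSol)
open Q27.HKN (Ker HKer SLF)
open Q27.TE (LocFin Kind fac Asc)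
open Q27.TRC (tr chars)

variable {C : ∀ (G : Type) [Group G], Prop}

/-- The group `K` acts without inversions on a tree such that the stabilizers of adjacent vertices are
commensurable, the orders of the finite subgroups of the vertex stabilizers are bounded, and one of the
vertex stabilizers is virtually polycyclic: it has a torsion-free solvable subgroup of finite index all
of whose subgroups are finitely generated. -/
def TreeType (K : Type) [Group K] : Prop :=
  ∃ (V : Type) (_ : MulAction K V) (T : SimpleGraph V), T.IsTree ∧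
    (∀ (x : K) (u v : V), T.Adj u v → T.Adj (x • u) (x • v)) ∧
    (∀ (x : K) (u v : V), T.Adj u v → ¬ (x • u = v ∧ x • v = u)) ∧
    (∀ u v : V, T.Adj u v → (stabilizer K u).relIndex (stabilizer K v) ≠ 0) ∧
    (∃ m : ℕ, ∀ (v : V) (F : Subgroup K), F ≤ stabilizer K v → Finite F → Nat.card F ≤ m) ∧
    ∃ (o : V) (P : Subgroup K), P ≤ stabilizer K o ∧ P.relIndex (stabilizer K o) ≠ 0 ∧
      Group.IsSolvable P ∧ (∀ H : Subgroup P, H.FG) ∧ ∀ (x : P) (n : ℕ), 0 < n → x ^ n = 1 → x = 1

theorem relIndex_comap_ne {K K' : Type} [Group K] [Group K'] (f : K' →* K) {A B : Subgroup K}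
    (h : A.relIndex B ≠ 0) : (A.comap f).relIndex (B.comap f) ≠ 0 := by
  rw [Subgroup.relIndex_comap]
  intro h0
  exact h (Subgroup.relIndex_eq_zero_of_le_right (Subgroup.map_comap_le f B) h0)

theorem TreeType.of_inj {K K' : Type} [Group K] [Group K'] (h : TreeType K) (f : K' →* K)
    (hf : Function.Injective f) : TreeType K' := by
  obtain ⟨V, _, T, hT, hadj, hinv, hcom, ⟨m, hm⟩, o, P, hPo, hPi, hsol, hfg, htf⟩ := h
  let _ : MulAction K' V := MulAction.compHom V f
  have hst : ∀ v : V, stabilizer K' v = (stabilizer K v).comap f := fun v => rfl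
  let φ : ↥(P.comap f) →* P := MonoidHom.mk' (fun x => ⟨f x, x.2⟩) (fun x y => by
    apply Subtype.ext
    show f ((x : K') * (y : K')) = f x * f y
    rw [map_mul])
  have hφ : Function.Injective φ := fun x y hxy =>
    Subtype.ext (hf (congrArg (fun z : P => (z : K)) hxy))
  refine ⟨V, inferInstance, T, hT, fun x u v h => hadj (f x) u v h,
    fun x u v h => hinv (f x) u v h, ?_, ⟨m, ?_⟩, o, P.comap f, ?_, ?_, ?_, ?_, ?_⟩
  · intro u v huv
    rw [hst, hst]
    exact relIndex_comap_ne f (hcom u v huv)
  · intro v F hF hfin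
    have h1 : F.map f ≤ stabilizer K v := by
      rw [Subgroup.map_le_iff_le_comap]
      exact hF
    have h2 := hm v (F.map f) h1 (Finite.of_equiv F (F.equivMapOfInjective f hf).toEquiv)
    rwa [Nat.card_congr (F.equivMapOfInjective f hf).toEquiv]
  · rw [hst]
    exact Subgroup.comap_mono hPo
  · rw [hst]
    exact relIndex_comap_ne f hPi
  · exact Group.isSolvable_of_isSolvable_injective hφ
  · intro H
    have h1 : Group.FG ↥(H.map φ) := (Group.fg_iff_subgroup_fg _).2 (hfg _)
    have h2 : Group.FG H := Group.fg_of_surjective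
      (f := (H.equivMapOfInjective φ hφ).symm.toMonoidHom)
      (H.equivMapOfInjective φ hφ).symm.surjective
    exact (Group.fg_iff_subgroup_fg _).1 h2
  · intro x n hn hx
    apply hφ
    rw [map_one]
    refine htf (φ x) n hn ?_
    rw [← map_pow, hx, map_one]

theorem closedF (hC : ClosedE C) (hF : FbC C) : ClosedF C := by
  refine ⟨hC, fun G _ N _ hN hQ => ?_⟩
  refine Pool.Agent.Y529.FJ.t_ext C hC G N ?_ hQ (fun g _ => ?_)
  · have h1 := Pool.Agent.R684.FP.free_cyc hC hF N 1
    exact hC.base.of_injective _ _ (Subgroup.inclusion le_sup_left)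
      (Subgroup.inclusion_injective _) h1
  · exact Pool.Agent.R684.FP.free_cyc hC hF N g

theorem met_of_sol (hsol : ∀ (G : Type) [Group G], Group.IsSolvable G → C G) : Met C := by
  intro S _ h
  refine hsol S ⟨⟨2, ?_⟩⟩
  rw [derivedSeries_succ, derivedSeries_one, Subgroup.commutator_eq_bot_iff_le_centralizer]
  intro a ha
  rw [Subgroup.mem_centralizer_iff]
  intro b hb
  exact h b hb a ha

theorem tree_hker (hC : ClosedE C) (hmet : Met C) (hF : FbC C) (hGL : ∀ m : ℕ, C (GL (Fin m) ℚ))
    {K : Type} [Group K] (h : TreeType K) : HKer C K := by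
  intro S V _ L _ c hc ⟨e⟩
  obtain ⟨X, _, T, hT, hadj, hinv, hcom, ⟨m, hm⟩, o, P, hPo, hPi, hsol, hfg, htf⟩ :=
    h.of_inj (S.subtype.comp e.toMonoidHom) (S.subtype_injective.comp e.injective)
  exact Pool.Agent.H6.GB.main hC hmet hF hGL L (Q27.TE.cyc_quot hC.base L c hc) T hT hadj hinv
    hcom m hm o P hPo hPi hsol hfg htf

theorem prod_hker (hC : ClosedE C) (hF : FbC C)
    (hsol : ∀ (G : Type) [Group G], Group.IsSolvable G → C G) {K : Type} [Group K] (k : ℕ)
    (X : Fin k → Type) (j : K →* ∀ i, FreeGroup (X i)) (hj : Function.Injective j) :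
    HKer C K := by
  intro S V _ L _ c hc ⟨e⟩
  exact Pool.Agent.N509.RF.ext_free_products hC hF (fun G _ h => hsol G ⟨⟨2, h⟩⟩) L k X
    (j.comp (S.subtype.comp e.toMonoidHom)) (hj.comp (S.subtype_injective.comp e.injective))
    (Q27.TE.cyc_quot hC.base L c hc)

/-- The smallest class of groups which contains the finite direct products of free groups, the
virtually solvable groups, the locally finite groups and the groups `TreeType`, is closed under
subgroups and overgroups of finite index, and contains a group `K` if it has a normal subgroup `F` in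
the class such that `K ⧸ F` is virtually solvable, or has a solvable normal subgroup the quotient `H` by
which is such that all finitely generated groups of maps of `ℤ` to `H` are finite (`SLF`). -/
inductive Kern : (K : Type) → [Group K] → Prop
  | prodFree (k : ℕ) (X : Fin k → Type) : Kern (∀ i, FreeGroup (X i))
  | vsol (K : Type) [Group K] : VSol K → Kern K
  | locFin (K : Type) [Group K] : LocFin K → Kern K
  | tree (K : Type) [Group K] : TreeType K → Kern K
  | inj (K K' : Type) [Group K] [Group K'] (f : K' →* K) : Function.Injective f → Kern K → Kern K'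
  | step (K : Type) [Group K] (F : Subgroup K) [F.Normal] : Kern F →
      (VSol (K ⧸ F) ∨ SLF (K ⧸ F)) → Kern K
  | finite (K : Type) [Group K] (F : Subgroup K) : Kern F → F.FiniteIndex → Kern K

theorem Kern.hker (hC : ClosedE C) (hF : FbC C)
    (hsol : ∀ (G : Type) [Group G], Group.IsSolvable G → C G) (hGL : ∀ m : ℕ, C (GL (Fin m) ℚ))
    {K : Type} [hg : Group K] (h : Kern K) : HKer C K := by
  induction h with
  | prodFree k X => exact prod_hker hC hF hsol k X (MonoidHom.id _) Function.injective_id
  | vsol K h => exact Q27.HKN.hker_kind (closedF hC hF) hsol (Or.inr (Or.inl h))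
  | locFin K h => exact Q27.HKN.hker_kind (closedF hC hF) hsol (Or.inr (Or.inr h))
  | tree K h => exact tree_hker hC (met_of_sol hsol) hF hGL h
  | inj K K' f hf _ ih => exact ih.of_inj f hf
  | step K F _ hQ ih => exact Q27.HKN.hker_step hC hsol F ih hQ
  | finite K F _ hfi ih => exact Q27.HKN.hker_fin hC hsol F hfi ih

/-- The normal subgroups of `G` reached from the trivial subgroup by extensions by normal factors in
`Kern`, and by directed unions. -/
inductive AKern {G : Type} [Group G] : Subgroup G → Prop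
  | bot : AKern ⊥
  | step (M N : Subgroup G) [M.Normal] [N.Normal] : AKern M → M ≤ N → Kern (fac M N) → AKern N
  | union (S : Set (Subgroup G)) : S.Nonempty → DirectedOn (· ≤ ·) S →
      (∀ M ∈ S, AKern M) → AKern (sSup S)

theorem AKern.asc (hC : ClosedE C) (hF : FbC C)
    (hsol : ∀ (G : Type) [Group G], Group.IsSolvable G → C G) (hGL : ∀ m : ℕ, C (GL (Fin m) ℚ))
    {G : Type} [Group G] {N : Subgroup G} (h : AKern N) : Asc C N := by
  induction h with
  | bot => exact Asc.bot
  | step M N hM hMN hfac ih =>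
    exact Asc.step M N ih hMN (Q27.HKN.ker_fac M N (hfac.hker hC hF hsol hGL).ker)
  | union S hS hd hSA ih => exact Asc.union S hS hd ih

theorem main_kern (hC : ClosedE C) (hF : FbC C)
    (hsol : ∀ (G : Type) [Group G], Group.IsSolvable G → C G) (hGL : ∀ m : ℕ, C (GL (Fin m) ℚ))
    {G : Type} [Group G] (N : Subgroup G) [N.Normal] (h : Kern N) (hQ : C (G ⧸ N)) : C G :=
  Q27.HKN.ker_over hC (Q27.TE.closedOver_self hC) N (h.hker hC hF hsol hGL).ker hQ

theorem main_akern (hC : ClosedE C) (hF : FbC C)
    (hsol : ∀ (G : Type) [Group G], Group.IsSolvable G → C G) (hGL : ∀ m : ℕ, C (GL (Fin m) ℚ))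
    {G : Type} [Group G] (N : Subgroup G) [N.Normal] (h : AKern N) (hQ : C (G ⧸ N)) : C G :=
  (h.asc hC hF hsol hGL).over hC (Q27.TE.closedOver_self hC) hQ

theorem main_chars (hC : ClosedE C) (hF : FbC C)
    (hsol : ∀ (G : Type) [Group G], Group.IsSolvable G → C G) (hGL : ∀ m : ℕ, C (GL (Fin m) ℚ))
    {G : Type} [Group G] (N : Subgroup G) [N.Normal] {n : ℕ} {K : Type} [Field K] [IsAlgClosed K]
    [CharZero K] (ρ : N →* GL (Fin n) K) (hfin : (chars N n K).Finite) (hk : Kern ρ.ker)
    (hQ : C (G ⧸ N)) : C G :=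
  Q27.HKN.ker_over hC (Q27.TE.closedOver_self hC) N
    (Q27.HKN.ker_chars hC hsol hGL ρ hfin (hk.hker hC hF hsol hGL)) hQ

end Pool.Agent.H6.NS
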