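import Pool.Agent.H6.NS.Main

/-!
# Finite products of free-by-(virtually solvable) groups
-/

set_option autoImplicit false

namespace Pool.Agent.H6.NS

open Q181.MCL (VSol)

theorem pi_sol {k : ℕ} (S : Fin k → Type) [∀ i, Group (S i)] (h : ∀ i, Group.IsSolvable (S i)) :
    Group.IsSolvable (∀ i, S i) := by
  have h1 : ∀ i, ∃ n, derivedSeries (S i) n = ⊥ := fun i => (h i).solvable
  choose n hn using h1
  refine ⟨⟨Finset.univ.sup n, ?_⟩⟩
  rw [Subgroup.eq_bot_iff_forall]
  intro x hx
  funext i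
  have h2 := map_derivedSeries_le_derivedSeries (Pi.evalMonoidHom S i) (Finset.univ.sup n)
    ⟨x, hx, rfl⟩
  have h3 : derivedSeries (S i) (Finset.univ.sup n) ≤ derivedSeries (S i) (n i) :=
    derivedSeries_antitone _ (Finset.le_sup (Finset.mem_univ i))
  have h4 := h3 h2
  rw [hn] at h4
  exact Subgroup.mem_bot.1 h4

theorem pi_vsol {k : ℕ} (Q : Fin k → Type) [∀ i, Group (Q i)] (h : ∀ i, VSol (Q i)) :
    VSol (∀ i, Q i) := by
  choose S hfi hs using h
  refine ⟨⨅ i, (S i).comap (Pi.evalMonoidHom Q i), ?_, ?_⟩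
  · have h1 : ∀ i, ((S i).comap (Pi.evalMonoidHom Q i)).FiniteIndex := by
      intro i
      constructor
      rw [Subgroup.index_comap]
      intro h0
      exact (hfi i).index_ne_zero (Subgroup.index_eq_zero_of_relIndex_eq_zero h0)
    exact Subgroup.finiteIndex_iInf h1
  · have h2 := pi_sol (fun i => S i) hs
    have hm : ∀ (x : ↥(⨅ i, (S i).comap (Pi.evalMonoidHom Q i))) (i : Fin k), (x : ∀ i, Q i) i ∈ S i :=
      fun x i => (Subgroup.mem_iInf.1 x.2 i)
    refine Group.isSolvable_of_isSolvable_injective (f := (MonoidHom.mk'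
      (fun x : ↥(⨅ i, (S i).comap (Pi.evalMonoidHom Q i)) =>
        (fun i => ⟨(x : ∀ i, Q i) i, hm x i⟩ : ∀ i, S i)) (fun x y => rfl))) ?_
    intro x y hxy
    apply Subtype.ext
    funext i
    exact congrArg Subtype.val (congrFun hxy i)

theorem Kern.hom {K Q : Type} [Group K] [Group Q] (φ : K →* Q) (hQ : VSol Q)
    (hk : Kern φ.ker) : Kern K :=
  Kern.step K φ.ker hk (Or.inl (Q27.HKN.vsol_inj hQ (QuotientGroup.kerLift φ)
    (QuotientGroup.kerLift_injective φ)))

/-- finite products of groups which are free-by-(virtually solvable) -/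
theorem kern_prod {k : ℕ} (H : Fin k → Type) [∀ i, Group (H i)]
    (h : ∀ i, ∃ (F : Subgroup (H i)) (_ : F.Normal), IsFreeGroup F ∧ VSol (H i ⧸ F)) :
    Kern (∀ i, H i) := by
  choose F hn hf hv using h
  let φ : (∀ i, H i) →* ∀ i, H i ⧸ F i := MonoidHom.mk' (fun x i => (QuotientGroup.mk' (F i)) (x i))
    (fun x y => by
      funext i
      show QuotientGroup.mk' (F i) (x i * y i) = _
      rw [map_mul]
      rfl)
  refine Kern.hom φ (pi_vsol _ hv) ?_
  have hm : ∀ (x : φ.ker) (i : Fin k), (x : ∀ i, H i) i ∈ F i := by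
    intro x i
    have h1 : φ x = 1 := x.2
    exact (QuotientGroup.eq_one_iff _).1 (congrFun h1 i)
  let e : ∀ i, F i ≃* FreeGroup (IsFreeGroup.Generators (F i)) := fun i =>
    (IsFreeGroup.toFreeGroup (F i))
  refine Kern.inj _ _ (MonoidHom.mk' (fun x : φ.ker => fun i => e i ⟨(x : ∀ i, H i) i, hm x i⟩)
    (fun x y => ?_)) ?_ (Kern.prodFree k fun i => IsFreeGroup.Generators (F i))
  · funext i
    show e i _ = e i _ * e i _
    rw [← map_mul]
    rfl
  · intro x y hxy
    apply Subtype.ext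
    funext i
    have h1 := (e i).injective (congrFun hxy i)
    exact congrArg Subtype.val h1

end Pool.Agent.H6.NS
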